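import Mathlib

/-!
# The bi-free Wasserstein distance is not a metric

We show that for all `n, m ≥ 1` the distance `W₂` on tracially bi-partite systems with `n` left
and `m` right variables violates the triangle inequality.

Let `x, v` be independent symmetric signs and `y` a sign with `E[x y] = 3/5`, `E y = 0`. Put
`S₁ = (10 x; v - 2 x)`, `S₂ = (10 x; v)`, `S₃ = (10 x; y)` (left variable; right variable), all
other variables being zero.

* `W₂(S₁, S₂) ≤ 2`, in the commutative space.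
* `W₂(S₂, S₃) ≤ (2/5)^{1/2}`: in the algebra of functions on two points with values in the
  `2 × 2` matrices, with the scalar valued functions as left face and the constants as right face,
  the pairs `(x; v)`, `(x; y)` are realised with the same left variable and with the right
  variables `[0, 1; 1, 0]` and `[3/5, 4/5; 4/5, -3/5]`.
* `W₂(S₁, S₃)² ≥ 7.5`: in `S₁` the left variable is mirrored in the right face, as a polynomial
  in the right variable, and this forces the right variables of any coupling of `S₁` and `S₃` to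
  behave as in the commutative case.
-/

open scoped ComplexOrder

universe u

namespace Pool.Agent.Results.MP_fc6efe_an.TriangleFails

/-- A left-right, tracially bi-partite C*-probability space. -/
structure Space where
  /-- the unital C*-algebra -/
  A : Type u
  [alg : CStarAlgebra A]
  /-- the left face -/
  L : StarSubalgebra ℂ A
  /-- the right face -/
  R : StarSubalgebra ℂ A
  isClosed_L : IsClosed (L : Set A)
  isClosed_R : IsClosed (R : Set A)
  commute : ∀ x ∈ L, ∀ y ∈ R, x * y = y * x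
  /-- the state -/
  φ : A →ₗ[ℂ] ℂ
  map_one : φ 1 = 1
  nonneg : ∀ a : A, 0 ≤ φ (star a * a)
  tracial_L : ∀ x ∈ L, ∀ y ∈ L, φ (x * y) = φ (y * x)
  tracial_R : ∀ x ∈ R, ∀ y ∈ R, φ (x * y) = φ (y * x)

attribute [instance] Space.alg

/-- The seminorm `‖z‖₂ = φ(z* z)^{1/2}`. -/
noncomputable def Space.norm2 (S : Space.{u}) (z : S.A) : ℝ :=
  Real.sqrt (S.φ (star z * z)).re

/-- A tracially bi-partite system with `n` left and `m` right variables in the space `S`. -/
structure System (S : Space.{u}) (n m : ℕ) where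
  X : Fin n → S.A
  Y : Fin m → S.A
  X_mem : ∀ i, X i ∈ S.L
  Y_mem : ∀ j, Y j ∈ S.R
  X_sa : ∀ i, IsSelfAdjoint (X i)
  Y_sa : ∀ j, IsSelfAdjoint (Y j)

/-- The moment `φ(Z₁ ⋯ Z_k)` attached to a word in the `n + m` letters. -/
noncomputable def System.moment {S : Space.{u}} {n m : ℕ} (s : System S n m)
    (w : List (Fin n ⊕ Fin m)) : ℂ :=
  S.φ ((w.map (Sum.elim s.X s.Y)).prod)

/-- `s` has the same distribution as `t`, and each operator of `s` has the same operator norm
as the corresponding operator of `t`. -/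
def System.IsCopy {S T : Space.{u}} {n m : ℕ} (s : System S n m) (t : System T n m) : Prop :=
  (∀ w, s.moment w = t.moment w) ∧ (∀ i, ‖s.X i‖ = ‖t.X i‖) ∧ (∀ j, ‖s.Y j‖ = ‖t.Y j‖)

/-- The `L²`-distance of two systems in the same space. -/
noncomputable def System.dist2 {S : Space.{u}} {n m : ℕ} (s t : System S n m) : ℝ :=
  Real.sqrt (∑ i, S.norm2 (s.X i - t.X i) ^ 2 + ∑ j, S.norm2 (s.Y j - t.Y j) ^ 2)

/-- The set of the costs of all couplings of `s` and `t`: the numbers `dist2 s' t'`, where `s'`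
and `t'` are copies of `s` and `t` in one and the same space `U`. -/
def costs {S T : Space.{u}} {n m : ℕ} (s : System S n m) (t : System T n m) : Set ℝ :=
  {d : ℝ | ∃ (U : Space.{u}) (s' t' : System U n m),
    s'.IsCopy s ∧ t'.IsCopy t ∧ d = s'.dist2 t'}

/-- The bi-free Wasserstein distance `W₂`, the infimum of the costs. -/
noncomputable def W2 {S T : Space.{u}} {n m : ℕ} (s : System S n m) (t : System T n m) : ℝ :=
  sInf (costs s t)

/-! ### Cauchy-Schwarz for the state -/

lemma phi_star (S : Space.{u}) (a : S.A) : S.φ (star a) = star (S.φ a) := by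
  have h1 := S.nonneg (a + 1)
  have h2 := S.nonneg (a + Complex.I • (1 : S.A))
  have h0 := S.nonneg a
  have e1 : star (a + 1) * (a + 1) = star a * a + star a + a + 1 := by
    simp only [star_add, star_one]; noncomm_ring
  have e2 : star (a + Complex.I • (1 : S.A)) * (a + Complex.I • (1 : S.A))
      = star a * a + Complex.I • star a - Complex.I • a + 1 := by
    have h : star (a + Complex.I • (1 : S.A)) = star a - Complex.I • (1 : S.A) := by
      rw [star_add, star_smul, star_one, Complex.star_def, Complex.conj_I, neg_smul,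
        sub_eq_add_neg]
    rw [h, sub_mul, mul_add, mul_smul_comm, mul_one, smul_mul_assoc, one_mul, smul_add,
      smul_smul, Complex.I_mul_I, neg_smul, one_smul]
    abel
  rw [e1] at h1
  rw [e2] at h2
  simp only [map_add, map_sub, map_smul, S.map_one, smul_eq_mul] at h1 h2
  rw [Complex.nonneg_iff] at h0 h1 h2
  obtain ⟨_, h0⟩ := h0
  obtain ⟨_, h1⟩ := h1
  obtain ⟨_, h2⟩ := h2
  simp only [Complex.add_im, Complex.sub_im, Complex.mul_im, Complex.I_re, Complex.I_im,
    Complex.one_im, zero_mul, one_mul, zero_add, add_zero] at h1 h2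
  apply Complex.ext
  · simp only [Complex.star_def, Complex.conj_re]
    linarith
  · simp only [Complex.star_def, Complex.conj_im]
    linarith

/-- the semi-inner product attached to the state -/
@[reducible] noncomputable def core (S : Space.{u}) : PreInnerProductSpace.Core ℂ S.A where
  inner a b := S.φ (star a * b)
  conj_inner_symm a b := by
    have := phi_star S (star b * a)
    rw [star_mul, star_star] at this
    rw [this]; rfl
  re_inner_nonneg a := (Complex.nonneg_iff.mp (S.nonneg a)).1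
  add_left a b c := by
    show S.φ (star (a + b) * c) = S.φ (star a * c) + S.φ (star b * c)
    rw [star_add, add_mul, map_add]
  smul_left a b r := by
    show S.φ (star (r • a) * b) = (starRingEnd ℂ) r * S.φ (star a * b)
    rw [star_smul, smul_mul_assoc, map_smul]; rfl

lemma cauchy_schwarz (S : Space.{u}) (a b : S.A) :
    ‖S.φ (star a * b)‖ ≤ S.norm2 a * S.norm2 b := by
  let _ := core S
  have h := InnerProductSpace.Core.inner_mul_inner_self_le (𝕜 := ℂ) (F := S.A) a b
  have hsym : ‖S.φ (star b * a)‖ = ‖S.φ (star a * b)‖ := by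
    have := phi_star S (star b * a)
    rw [star_mul, star_star] at this
    rw [this, norm_star]
  have h' : ‖S.φ (star a * b)‖ * ‖S.φ (star b * a)‖
      ≤ (S.φ (star a * a)).re * (S.φ (star b * b)).re := h
  rw [hsym] at h'
  unfold Space.norm2
  rw [← Real.sqrt_mul (Complex.nonneg_iff.mp (S.nonneg a)).1]
  apply Real.le_sqrt_of_sq_le
  rw [sq]; exact h'

lemma norm2_sq (S : Space.{u}) (a : S.A) : S.norm2 a ^ 2 = (S.φ (star a * a)).re := by
  unfold Space.norm2
  exact Real.sq_sqrt (Complex.nonneg_iff.mp (S.nonneg a)).1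

lemma norm2_nonneg (S : Space.{u}) (a : S.A) : 0 ≤ S.norm2 a := Real.sqrt_nonneg _

lemma norm2_zero (S : Space.{u}) : S.norm2 0 = 0 := by
  unfold Space.norm2; simp

lemma phi_eq_zero (S : Space.{u}) {a : S.A} (ha : IsSelfAdjoint a) (h : S.φ (a * a) = 0)
    (b : S.A) : S.φ (a * b) = 0 := by
  have h1 := cauchy_schwarz S a b
  have h2 : S.norm2 a = 0 := by
    unfold Space.norm2
    rw [ha.star_eq, h]; simp
  rw [h2, zero_mul, ha.star_eq] at h1
  exact norm_le_zero_iff.mp h1

/-! ### transfer of moments -/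

section transfer

variable {S T : Space.{u}} {n m : ℕ} {s : System S n m} {t : System T n m}

lemma System.IsCopy.phi_pow (h : s.IsCopy t) (j : Fin m) (k : ℕ) :
    S.φ (s.Y j ^ k) = T.φ (t.Y j ^ k) := by
  have := h.1 (List.replicate k (Sum.inr j))
  simpa [System.moment] using this

lemma System.IsCopy.phi_X_pow (h : s.IsCopy t) (i : Fin n) (j : Fin m) (k : ℕ) :
    S.φ (s.X i * s.Y j ^ k) = T.φ (t.X i * t.Y j ^ k) := by
  have := h.1 (Sum.inl i :: List.replicate k (Sum.inr j))
  simpa [System.moment] using this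

lemma System.IsCopy.phi_XX (h : s.IsCopy t) (i : Fin n) :
    S.φ (s.X i * s.X i) = T.φ (t.X i * t.X i) := by
  have := h.1 [Sum.inl i, Sum.inl i]
  simpa [System.moment] using this

lemma System.IsCopy.phi_aeval (h : s.IsCopy t) (j : Fin m) (p : Polynomial ℂ) :
    S.φ (Polynomial.aeval (s.Y j) p) = T.φ (Polynomial.aeval (t.Y j) p) := by
  induction p using Polynomial.induction_on' with
  | add p q hp hq => simp only [map_add, hp, hq]
  | monomial k c =>
    simp only [Polynomial.aeval_monomial, ← Algebra.smul_def, map_smul, h.phi_pow]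

lemma System.IsCopy.phi_X_aeval (h : s.IsCopy t) (i : Fin n) (j : Fin m) (p : Polynomial ℂ) :
    S.φ (s.X i * Polynomial.aeval (s.Y j) p) = T.φ (t.X i * Polynomial.aeval (t.Y j) p) := by
  induction p using Polynomial.induction_on' with
  | add p q hp hq => simp only [map_add, mul_add, hp, hq]
  | monomial k c =>
    simp only [Polynomial.aeval_monomial, ← Algebra.smul_def, map_smul, mul_smul_comm,
      h.phi_X_pow]

end transfer

lemma aeval_mem {A : Type u} [CStarAlgebra A] (R : StarSubalgebra ℂ A) {y : A} (hy : y ∈ R)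
    (p : Polynomial ℂ) : Polynomial.aeval y p ∈ R := by
  induction p using Polynomial.induction_on' with
  | add p q hp hq => rw [map_add]; exact add_mem hp hq
  | monomial k c =>
    rw [Polynomial.aeval_monomial, ← Algebra.smul_def]
    exact R.smul_mem (pow_mem hy k) c

/-- The heart of the lower bound: `Y₁ = 2 W - (3/10) V`, where `V` is a mirror of `X₁` and
`W³ = W` in `L²`. -/
lemma lower (U : Space.{u}) (X₁ X₃ Y₁ Y₃ V W : U.A)
    (hX₁ : IsSelfAdjoint X₁) (hX₃ : IsSelfAdjoint X₃)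
    (hY₁ : IsSelfAdjoint Y₁) (hY₃ : IsSelfAdjoint Y₃)
    (hV : IsSelfAdjoint V) (hW : IsSelfAdjoint W)
    (hX₁L : X₁ ∈ U.L) (hVR : V ∈ U.R) (hWR : W ∈ U.R)
    (hY₁R : Y₁ ∈ U.R) (hY₃R : Y₃ ∈ U.R)
    (hY : Y₁ = (2 : ℂ) • W - (3 / 10 : ℂ) • V)
    (h1 : U.φ (X₁ * X₁) = 100) (h2 : U.φ (X₁ * V) = 100) (h3 : U.φ (V * V) = 100)
    (h4 : U.φ (W * W) = 1 / 2) (h5 : U.φ (W * W * (W * W)) = 1 / 2)
    (h6 : U.φ ((W * W * W - W) * (W * W * W - W)) = 0)
    (h7 : U.φ (Y₁ * Y₁) = 5) (h8 : U.φ (X₃ * Y₃) = 6) (h9 : U.φ (Y₃ * Y₃) = 1)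
    (h10 : U.φ ((Y₃ * Y₃ - 1) * (Y₃ * Y₃ - 1)) = 0) :
    7.5 ≤ U.norm2 (X₁ - X₃) ^ 2 + U.norm2 (Y₁ - Y₃) ^ 2 := by
  -- the mirror relation
  have hVX : V * X₁ = X₁ * V := (U.commute X₁ hX₁L V hVR).symm
  have k1 : U.φ ((X₁ - V) * (X₁ - V)) = 0 := by
    have : (X₁ - V) * (X₁ - V) = X₁ * X₁ - X₁ * V - V * X₁ + V * V := by noncomm_ring
    rw [this, hVX, map_add, map_sub, map_sub, h1, h2, h3]; norm_num
  have k2 : U.φ (X₁ * Y₃) = U.φ (V * Y₃) := by
    have := phi_eq_zero U (hX₁.sub hV) k1 Y₃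
    rw [sub_mul, map_sub] at this
    exact sub_eq_zero.mp this
  -- comparison of `X₁` and `X₃`
  have k3 : ‖U.φ (X₁ * Y₃) - U.φ (X₃ * Y₃)‖ ≤ U.norm2 (X₁ - X₃) := by
    have := cauchy_schwarz U (X₁ - X₃) Y₃
    rw [(hX₁.sub hX₃).star_eq, sub_mul, map_sub] at this
    have hn : U.norm2 Y₃ = 1 := by
      unfold Space.norm2
      rw [hY₃.star_eq, h9]; simp
    rwa [hn, mul_one] at this
  have k4 : 6 - U.norm2 (X₁ - X₃) ≤ (U.φ (V * Y₃)).re := by
    have := (Complex.abs_re_le_norm _).trans k3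
    rw [k2, h8, Complex.sub_re] at this
    have h' := (abs_le.mp this).1
    have : (6 : ℂ).re = 6 := by norm_num
    rw [this] at h'
    linarith
  -- the noncommutative bound
  have k5 : U.φ (W * W * W * Y₃) = U.φ (W * Y₃) := by
    have hsa : IsSelfAdjoint (W * W * W - W) := by
      apply IsSelfAdjoint.sub _ hW
      rw [IsSelfAdjoint, star_mul, star_mul, hW.star_eq, mul_assoc]
    have := phi_eq_zero U hsa h6 Y₃
    rw [sub_mul, map_sub] at this
    exact sub_eq_zero.mp this
  have k6 : U.φ (Y₃ * (W * W * W)) = U.φ (W * W * W * Y₃) :=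
    U.tracial_R _ hY₃R _ (mul_mem (mul_mem hWR hWR) hWR)
  have k7 : U.φ (Y₃ * (W * W) * (W * W * Y₃)) = 1 / 2 := by
    have a1 : U.φ (Y₃ * (W * W) * (W * W * Y₃)) = U.φ (W * W * (W * W * Y₃) * Y₃) := by
      rw [mul_assoc]
      exact U.tracial_R _ hY₃R _
        (mul_mem (mul_mem hWR hWR) (mul_mem (mul_mem hWR hWR) hY₃R))
    have a2 : W * W * (W * W * Y₃) * Y₃ = W * W * (W * W) * (Y₃ * Y₃ - 1) + W * W * (W * W) := by
      noncomm_ring
    have a3 : U.φ (W * W * (W * W) * (Y₃ * Y₃ - 1)) = 0 := by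
      have hsa : IsSelfAdjoint (Y₃ * Y₃ - 1) := by
        apply IsSelfAdjoint.sub _ (IsSelfAdjoint.one _)
        rw [IsSelfAdjoint, star_mul, hY₃.star_eq]
      have := phi_eq_zero U hsa h10 (W * W * (W * W))
      rw [← this]
      exact U.tracial_R _ (mul_mem (mul_mem hWR hWR) (mul_mem hWR hWR)) _
        (sub_mem (mul_mem hY₃R hY₃R) (one_mem _))
    rw [a1, a2, map_add, a3, h5, zero_add]
  have k8 : (U.φ (W * Y₃)).re ≤ 1 / 2 := by
    have h0 := (Complex.nonneg_iff.mp (U.nonneg (W - W * W * Y₃))).1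
    have e : star (W - W * W * Y₃) * (W - W * W * Y₃)
        = W * W - W * W * W * Y₃ - Y₃ * (W * W * W) + Y₃ * (W * W) * (W * W * Y₃) := by
      rw [star_sub, star_mul, star_mul, hW.star_eq, hY₃.star_eq]; noncomm_ring
    rw [e, map_add, map_sub, map_sub, k7, k6, k5, h4] at h0
    simp only [Complex.add_re, Complex.sub_re] at h0
    have : (1 / 2 : ℂ).re = 1 / 2 := by norm_num
    rw [this] at h0
    linarith
  -- the total cost
  have k9 : U.φ (Y₃ * Y₁) = U.φ (Y₁ * Y₃) := U.tracial_R _ hY₃R _ hY₁R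
  have k10 : U.norm2 (Y₁ - Y₃) ^ 2 = 6 - 2 * (U.φ (Y₁ * Y₃)).re := by
    rw [norm2_sq, (hY₁.sub hY₃).star_eq]
    have : (Y₁ - Y₃) * (Y₁ - Y₃) = Y₁ * Y₁ - Y₁ * Y₃ - Y₃ * Y₁ + Y₃ * Y₃ := by noncomm_ring
    rw [this, map_add, map_sub, map_sub, k9, h7, h9]
    simp only [Complex.add_re, Complex.sub_re, Complex.one_re]
    have : (5 : ℂ).re = 5 := by norm_num
    rw [this]; ring
  have k11 : U.φ (Y₁ * Y₃) = 2 * U.φ (W * Y₃) - (3 / 10) * U.φ (V * Y₃) := by
    rw [hY, sub_mul, smul_mul_assoc, smul_mul_assoc, map_sub, map_smul, map_smul,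
      smul_eq_mul, smul_eq_mul]
  have k12 : (U.φ (Y₁ * Y₃)).re = 2 * (U.φ (W * Y₃)).re - (3 / 10) * (U.φ (V * Y₃)).re := by
    rw [k11, Complex.sub_re]
    have a1 : ((2 : ℂ) * U.φ (W * Y₃)).re = 2 * (U.φ (W * Y₃)).re := by
      simp [Complex.mul_re]
    have a2 : ((3 / 10 : ℂ) * U.φ (V * Y₃)).re = 3 / 10 * (U.φ (V * Y₃)).re := by
      have : (3 / 10 : ℂ) = ((3 / 10 : ℝ) : ℂ) := by push_cast; ring
      rw [this, Complex.re_ofReal_mul]
    rw [a1, a2]
  rw [k10, k12]
  nlinarith [sq_nonneg (U.norm2 (X₁ - X₃) - 3 / 10)]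

/-! ### systems with one nonzero variable on each side -/

/-- The system `(x, 0, …, 0; y, 0, …, 0)`. -/
def mk (S : Space.{u}) (n m : ℕ) (x y : S.A) (hx : x ∈ S.L) (hy : y ∈ S.R)
    (sx : IsSelfAdjoint x) (sy : IsSelfAdjoint y) : System S n m where
  X i := if (i : ℕ) = 0 then x else 0
  Y j := if (j : ℕ) = 0 then y else 0
  X_mem i := by split_ifs; exacts [hx, zero_mem _]
  Y_mem j := by split_ifs; exacts [hy, zero_mem _]
  X_sa i := by split_ifs; exacts [sx, IsSelfAdjoint.zero _]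
  Y_sa j := by split_ifs; exacts [sy, IsSelfAdjoint.zero _]

lemma isCopy_refl {S : Space.{u}} {n m : ℕ} (s : System S n m) : s.IsCopy s :=
  ⟨fun _ => rfl, fun _ => rfl, fun _ => rfl⟩

lemma isCopy_of_hom {S T : Space.{u}} {n m : ℕ} {D : Type u} [Ring D] [Algebra ℂ D]
    (ψ : D →ₐ[ℂ] S.A) (χ : D →ₐ[ℂ] T.A) (h : ∀ d, S.φ (ψ d) = T.φ (χ d)) (xD yD : D)
    {x y : S.A} {x' y' : T.A} (e1 : ψ xD = x) (e2 : ψ yD = y) (e3 : χ xD = x') (e4 : χ yD = y')
    {hx : x ∈ S.L} {hy : y ∈ S.R} {sx : IsSelfAdjoint x} {sy : IsSelfAdjoint y}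
    {hx' : x' ∈ T.L} {hy' : y' ∈ T.R} {sx' : IsSelfAdjoint x'} {sy' : IsSelfAdjoint y'}
    (nx : ‖x‖ = ‖x'‖) (ny : ‖y‖ = ‖y'‖) :
    (mk S n m x y hx hy sx sy).IsCopy (mk T n m x' y' hx' hy' sx' sy') := by
  subst e1 e2 e3 e4
  refine ⟨fun w => ?_, fun i => ?_, fun j => ?_⟩
  · have key : ∀ {S : Space.{u}} (ψ : D →ₐ[ℂ] S.A) (hx : ψ xD ∈ S.L) (hy : ψ yD ∈ S.R)
        (sx : IsSelfAdjoint (ψ xD)) (sy : IsSelfAdjoint (ψ yD)),
        (mk S n m (ψ xD) (ψ yD) hx hy sx sy).moment w = S.φ (ψ ((w.map (Sum.elim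
          (fun i : Fin n => if (i : ℕ) = 0 then xD else 0)
          (fun j : Fin m => if (j : ℕ) = 0 then yD else 0))).prod)) := by
      intro S ψ hx hy sx sy
      unfold System.moment
      refine congrArg S.φ ?_
      rw [map_list_prod, List.map_map]
      refine congrArg List.prod (List.map_congr_left fun z _ => ?_)
      rcases z with i | j
      · simp only [Sum.elim_inl, Function.comp_apply, mk]
        split_ifs <;> simp
      · simp only [Sum.elim_inr, Function.comp_apply, mk]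
        split_ifs <;> simp
    rw [key ψ, key χ, h]
  · simp only [mk]; split_ifs <;> simp [nx]
  · simp only [mk]; split_ifs <;> simp [ny]

lemma dist2_mk {S : Space.{u}} {n m : ℕ} (hn : 0 < n) (hm : 0 < m) {x y x' y' : S.A}
    {hx : x ∈ S.L} {hy : y ∈ S.R} {sx : IsSelfAdjoint x} {sy : IsSelfAdjoint y}
    {hx' : x' ∈ S.L} {hy' : y' ∈ S.R} {sx' : IsSelfAdjoint x'} {sy' : IsSelfAdjoint y'} :
    (mk S n m x y hx hy sx sy).dist2 (mk S n m x' y' hx' hy' sx' sy')
      = Real.sqrt (S.norm2 (x - x') ^ 2 + S.norm2 (y - y') ^ 2) := by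
  unfold System.dist2
  congr 2
  · rw [Finset.sum_eq_single (⟨0, hn⟩ : Fin n)]
    · simp [mk]
    · intro i _ hi
      have : (i : ℕ) ≠ 0 := fun h => hi (Fin.ext h)
      simp [mk, this, norm2_zero]
    · simp
  · rw [Finset.sum_eq_single (⟨0, hm⟩ : Fin m)]
    · simp [mk]
    · intro i _ hi
      have : (i : ℕ) ≠ 0 := fun h => hi (Fin.ext h)
      simp [mk, this, norm2_zero]
    · simp

lemma W2_le {S T U : Space.{u}} {n m : ℕ} {s : System S n m} {t : System T n m}
    {s' t' : System U n m} (h1 : s'.IsCopy s) (h2 : t'.IsCopy t) : W2 s t ≤ s'.dist2 t' :=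
  csInf_le ⟨0, by rintro d ⟨U, s', t', -, -, rfl⟩; exact Real.sqrt_nonneg _⟩
    ⟨U, s', t', h1, h2, rfl⟩

/-! ### the commutative space -/

/-- a two-point type in the universe `u` -/
abbrev B := ULift.{u} Bool

/-- the sign -/
noncomputable def sg (b : B.{u}) : ℂ := if b.down then 1 else -1

lemma sum_B (f : B.{u} → ℂ) : ∑ b, f b = f ⟨true⟩ + f ⟨false⟩ := by
  rw [← Equiv.sum_comp Equiv.ulift.symm]
  simp

lemma sg_mul_self (b : B.{u}) : sg b * sg b = 1 := by
  unfold sg; split_ifs <;> simp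

lemma star_sg (b : B.{u}) : star (sg b) = sg b := by
  unfold sg; split_ifs <;> simp

/-- sample space `(x, v, ε)` -/
abbrev Om := B.{u} × B.{u} × B.{u}

/-- the probability weights -/
noncomputable def wt (o : Om.{u}) : ℝ := if o.2.2.down then 1 / 5 else 1 / 20

lemma wt_nonneg (o : Om.{u}) : 0 ≤ wt o := by unfold wt; split_ifs <;> norm_num

/-- the commutative space -/
noncomputable abbrev comm : Space.{u} where
  A := Om.{u} → ℂ
  L := ⊤
  R := ⊤
  isClosed_L := by simp
  isClosed_R := by simp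
  commute x _ y _ := mul_comm x y
  φ := { toFun := fun f => ∑ o, (wt o : ℂ) * f o
         map_add' := fun f g => by simp [mul_add, Finset.sum_add_distrib]
         map_smul' := fun c f => by
          simp only [Pi.smul_apply, smul_eq_mul, RingHom.id_apply, Finset.mul_sum]
          exact Finset.sum_congr rfl fun o _ => by ring }
  map_one := by
    simp only [LinearMap.coe_mk, AddHom.coe_mk, Pi.one_apply, mul_one, Fintype.sum_prod_type,
      sum_B, wt]
    norm_num
  nonneg f := by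
    simp only [LinearMap.coe_mk, AddHom.coe_mk, Pi.mul_apply, Pi.star_apply]
    refine Finset.sum_nonneg fun o _ => mul_nonneg ?_ (star_mul_self_nonneg _)
    exact_mod_cast wt_nonneg o
  tracial_L x _ y _ := congrArg _ (mul_comm x y)
  tracial_R x _ y _ := congrArg _ (mul_comm x y)

lemma comm_φ (f : Om.{u} → ℂ) : comm.φ f = ∑ o, (wt o : ℂ) * f o := rfl

lemma sg_true : sg (⟨true⟩ : B.{u}) = 1 := by simp [sg]

lemma sg_false : sg (⟨false⟩ : B.{u}) = -1 := by simp [sg]

/-! ### the space over the `2 × 2` matrices -/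

/-- complex `2 × 2` matrices with the operator norm -/
abbrev M2 := CStarMatrix (Fin 2) (Fin 2) ℂ

/-- the constant functions -/
def constSub : StarSubalgebra ℂ (B.{u} → M2) where
  carrier := {f | f ⟨true⟩ = f ⟨false⟩}
  mul_mem' {f g} hf hg := by
    simp only [Set.mem_ofPred_eq, Pi.mul_apply] at *
    rw [hf, hg]
  add_mem' {f g} hf hg := by
    simp only [Set.mem_ofPred_eq, Pi.add_apply] at *
    rw [hf, hg]
  algebraMap_mem' c := rfl
  star_mem' {f} hf := by
    simp only [Set.mem_ofPred_eq, Pi.star_apply] at *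
    rw [hf]

/-- the functions with central values -/
def scalSub : StarSubalgebra ℂ (B.{u} → M2) where
  carrier := {f | ∀ (c : M2) (b : B.{u}), f b * c = c * f b}
  mul_mem' {f g} hf hg := by
    intro c b
    simp only [Set.mem_ofPred_eq, Pi.mul_apply] at *
    rw [mul_assoc, hg, ← mul_assoc, hf, mul_assoc]
  add_mem' {f g} hf hg := by
    intro c b
    simp only [Set.mem_ofPred_eq, Pi.add_apply] at *
    rw [add_mul, hf, hg, mul_add]
  algebraMap_mem' r := by
    intro c b
    simp only [Pi.algebraMap_apply]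
    exact Algebra.commutes r c
  star_mem' {f} hf := by
    intro c b
    simp only [Set.mem_ofPred_eq, Pi.star_apply] at *
    have := congrArg star (hf (star c) b)
    simpa [star_mul] using this.symm

lemma mem_constSub {f : B.{u} → M2} (hf : f ∈ constSub) (b c : B.{u}) : f b = f c := by
  have h : f ⟨true⟩ = f ⟨false⟩ := hf
  rcases b with ⟨b⟩; rcases c with ⟨c⟩
  cases b <;> cases c <;> simp [h]

/-- the matrix space -/
noncomputable abbrev mat : Space.{u} where
  A := B.{u} → M2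
  L := scalSub
  R := constSub
  isClosed_L := by
    have : ((scalSub : StarSubalgebra ℂ (B.{u} → M2)) : Set (B.{u} → M2))
        = ⋂ (c : M2) (b : B.{u}), {f | f b * c = c * f b} := by
      ext f; simp only [Set.mem_iInter]; rfl
    rw [this]
    refine isClosed_iInter fun c => isClosed_iInter fun b => isClosed_eq ?_ ?_
    · exact (continuous_apply b).mul continuous_const
    · exact continuous_const.mul (continuous_apply b)
  isClosed_R := isClosed_eq (continuous_apply _) (continuous_apply _)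
  commute x hx y _ := funext fun b => hx (y b) b
  φ := { toFun := fun f => (f ⟨true⟩ 0 0 + f ⟨false⟩ 1 1) / 2
         map_add' := fun f g => by simp only [Pi.add_apply, CStarMatrix.add_apply]; ring
         map_smul' := fun c f => by
          simp only [Pi.smul_apply, CStarMatrix.smul_apply, smul_eq_mul, RingHom.id_apply]; ring }
  map_one := by simp
  nonneg f := by
    simp only [LinearMap.coe_mk, AddHom.coe_mk, Pi.mul_apply, Pi.star_apply,
      CStarMatrix.mul_apply, CStarMatrix.star_apply]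
    have h : ∀ z : ℂ, 0 ≤ star z * z := fun z => star_mul_self_nonneg z
    have h2 : (0 : ℂ) ≤ 2⁻¹ := by
      rw [Complex.nonneg_iff]; norm_num
    rw [div_eq_mul_inv]
    exact mul_nonneg (add_nonneg (Finset.sum_nonneg fun i _ => h _)
      (Finset.sum_nonneg fun i _ => h _)) h2
  tracial_L x hx y _ := by
    refine congrArg _ (funext fun b => ?_)
    exact hx (y b) b
  tracial_R x hx y hy := by
    have hx' := mem_constSub hx
    have hy' := mem_constSub hy
    simp only [LinearMap.coe_mk, AddHom.coe_mk, Pi.mul_apply, CStarMatrix.mul_apply,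
      Fin.sum_univ_two]
    rw [hx' ⟨false⟩ ⟨true⟩, hy' ⟨false⟩ ⟨true⟩]
    ring

lemma mat_φ (f : B.{u} → M2) : mat.φ f = (f ⟨true⟩ 0 0 + f ⟨false⟩ 1 1) / 2 := rfl

/-- the reflection with entries `a, b; b, -a` -/
noncomputable def refl (a b : ℝ) : M2 := CStarMatrix.ofMatrix !![(a : ℂ), (b : ℂ); (b : ℂ), -(a : ℂ)]

lemma refl_mul_self {a b : ℝ} (h : a ^ 2 + b ^ 2 = 1) : refl a b * refl a b = 1 := by
  have h' : (a : ℂ) ^ 2 + (b : ℂ) ^ 2 = 1 := by exact_mod_cast h
  ext i j
  fin_cases i <;> fin_cases j <;>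
    simp [refl, CStarMatrix.mul_apply, Fin.sum_univ_two] <;>
    first
      | linear_combination h'
      | ring

lemma refl_star (a b : ℝ) : star (refl a b) = refl a b := by
  ext i j
  fin_cases i <;> fin_cases j <;> simp [refl, CStarMatrix.star_apply]

lemma norm_one_of_sq {A : Type*} [CStarAlgebra A] [Nontrivial A] {x : A} (h1 : star x = x)
    (h2 : x * x = 1) : ‖x‖ = 1 := by
  have h := CStarRing.norm_star_mul_self (x := x)
  rw [h1, h2, CStarRing.norm_one] at h
  nlinarith [norm_nonneg x]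

/-- the algebra of functions on the four point set -/
abbrev D := B.{u} × B.{u} → ℂ

/-- pull-back along a map of sample spaces -/
def pull (g : Om.{u} → B.{u} × B.{u}) : D.{u} →ₐ[ℂ] (Om.{u} → ℂ) where
  toFun f := fun o => f (g o)
  map_one' := rfl
  map_mul' _ _ := rfl
  map_zero' := rfl
  map_add' _ _ := rfl
  commutes' _ := rfl

/-- the functional calculus of the commuting pair `(sg, refl a b)` -/
noncomputable def calc2 (a b : ℝ) (h : a ^ 2 + b ^ 2 = 1) : D.{u} →ₐ[ℂ] (B.{u} → M2) where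
  toFun f := fun c => ((f (c, ⟨true⟩) + f (c, ⟨false⟩)) / 2) • (1 : M2)
    + ((f (c, ⟨true⟩) - f (c, ⟨false⟩)) / 2) • refl a b
  map_one' := by
    funext c; simp
  map_mul' f g := by
    funext c
    simp only [Pi.mul_apply, add_mul, mul_add, smul_mul_assoc, mul_smul_comm, one_mul, mul_one,
      refl_mul_self h]
    module
  map_zero' := by
    funext c; simp
  map_add' f g := by
    funext c
    simp only [Pi.add_apply]
    module
  commutes' r := by
    funext c
    simp only [Pi.algebraMap_apply, Algebra.algebraMap_eq_smul_one]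
    simp

lemma calc2_φ (a b : ℝ) (h : a ^ 2 + b ^ 2 = 1) (f : D.{u}) :
    mat.φ (calc2 a b h f) = ((1 + a) * (f (⟨true⟩, ⟨true⟩) + f (⟨false⟩, ⟨false⟩))
      + (1 - a) * (f (⟨true⟩, ⟨false⟩) + f (⟨false⟩, ⟨true⟩))) / 4 := by
  rw [mat_φ]
  simp only [calc2, AlgHom.coe_mk, RingHom.coe_mk, MonoidHom.coe_mk, OneHom.coe_mk,
    CStarMatrix.add_apply, CStarMatrix.smul_apply, smul_eq_mul, refl, CStarMatrix.ofMatrix_apply]
  simp
  ring

/-! ### the three systems -/

/-- the sign of the first coordinate -/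
noncomputable def xf : Om.{u} → ℂ := fun o => sg o.1

/-- the sign of the second coordinate -/
noncomputable def vf : Om.{u} → ℂ := fun o => sg o.2.1

/-- the product of the signs of the first and third coordinates -/
noncomputable def yf : Om.{u} → ℂ := fun o => sg o.1 * sg o.2.2

lemma xf_sa : star xf.{u} = xf := funext fun _ => star_sg _
lemma vf_sa : star vf.{u} = vf := funext fun _ => star_sg _
lemma yf_sa : star yf.{u} = yf := funext fun o => by
  simp only [Pi.star_apply, yf, star_mul, star_sg, mul_comm]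

lemma xf_sq : xf.{u} * xf = 1 := funext fun _ => sg_mul_self _
lemma vf_sq : vf.{u} * vf = 1 := funext fun _ => sg_mul_self _
lemma yf_sq : yf.{u} * yf = 1 := funext fun o => by
  simp only [Pi.mul_apply, yf, Pi.one_apply]
  rw [mul_mul_mul_comm, sg_mul_self, sg_mul_self, one_mul]

lemma star_smul10 {A : Type*} [CStarAlgebra A] {x : A} (h : star x = x) :
    IsSelfAdjoint ((10 : ℂ) • x) := by
  rw [IsSelfAdjoint, star_smul, h]; congr 1; norm_num

/-- first system: `(10 x; v - 2 x)` -/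
noncomputable def S1 (n m : ℕ) : System comm.{u} n m :=
  mk comm n m ((10 : ℂ) • xf) (vf - (2 : ℂ) • xf) StarSubalgebra.mem_top StarSubalgebra.mem_top
    (star_smul10 xf_sa)
    (by
      have h : star ((2 : ℂ) • xf.{u}) = (2 : ℂ) • xf := by
        rw [star_smul, xf_sa]; congr 1; norm_num
      show star (vf - (2 : ℂ) • xf.{u}) = _
      rw [star_sub, vf_sa, h])

/-- second system: `(10 x; v)` -/
noncomputable def S2 (n m : ℕ) : System comm.{u} n m :=
  mk comm n m ((10 : ℂ) • xf) vf StarSubalgebra.mem_top StarSubalgebra.mem_top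
    (star_smul10 xf_sa) (show IsSelfAdjoint vf from vf_sa)

/-- third system: `(10 x; y)` -/
noncomputable def S3 (n m : ℕ) : System comm.{u} n m :=
  mk comm n m ((10 : ℂ) • xf) yf StarSubalgebra.mem_top StarSubalgebra.mem_top
    (star_smul10 xf_sa) (show IsSelfAdjoint yf from yf_sa)

/-- the left variable of the matrix space -/
noncomputable def xm : B.{u} → M2 := fun b => sg b • (1 : M2)

lemma xm_sa : star xm.{u} = xm := funext fun b => by
  simp only [Pi.star_apply, xm, star_smul, star_sg, star_one]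

lemma xm_sq : xm.{u} * xm = 1 := funext fun b => by
  simp only [Pi.mul_apply, xm, smul_mul_assoc, mul_smul_comm, one_mul, Pi.one_apply]
  rw [smul_smul, sg_mul_self, one_smul]

/-- the right variable of the matrix space -/
noncomputable def rm (a b : ℝ) : B.{u} → M2 := fun _ => refl a b

lemma rm_sa (a b : ℝ) : star (rm.{u} a b) = rm a b := funext fun _ => refl_star a b

lemma rm_sq {a b : ℝ} (h : a ^ 2 + b ^ 2 = 1) : rm.{u} a b * rm a b = 1 :=
  funext fun _ => refl_mul_self h

lemma xm_mem : (10 : ℂ) • xm.{u} ∈ (mat.{u}).L := by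
  intro c b
  simp only [Pi.smul_apply, xm, smul_mul_assoc, mul_smul_comm, one_mul, mul_one]

lemma rm_mem (a b : ℝ) : rm.{u} a b ∈ (mat.{u}).R := rfl

/-- the matrix model `(10 x; refl a b)` -/
noncomputable def Mm (n m : ℕ) (a b : ℝ) : System mat.{u} n m :=
  mk mat n m ((10 : ℂ) • xm) (rm a b) xm_mem (rm_mem a b) (star_smul10 xm_sa)
    (show IsSelfAdjoint (rm a b) from rm_sa a b)

/-- the first coordinate on the four point set, times ten -/
noncomputable def xD : D.{u} := fun d => 10 * sg d.1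

/-- the second coordinate on the four point set -/
noncomputable def yD : D.{u} := fun d => sg d.2

lemma calc2_xD (a b : ℝ) (h : a ^ 2 + b ^ 2 = 1) : calc2.{u} a b h xD = (10 : ℂ) • xm := by
  funext c
  simp only [calc2, AlgHom.coe_mk, RingHom.coe_mk, MonoidHom.coe_mk, OneHom.coe_mk, xD, xm,
    Pi.smul_apply, smul_smul]
  simp

lemma calc2_yD (a b : ℝ) (h : a ^ 2 + b ^ 2 = 1) : calc2.{u} a b h yD = rm a b := by
  funext c
  simp only [calc2, AlgHom.coe_mk, RingHom.coe_mk, MonoidHom.coe_mk, OneHom.coe_mk, yD, rm,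
    sg_true, sg_false]
  norm_num

lemma pull_φ (g : Om.{u} → B.{u} × B.{u}) (d : D.{u}) :
    comm.φ (pull g d) = ∑ o, (wt o : ℂ) * d (g o) := rfl

lemma copy2 (n m : ℕ) : (Mm.{u} n m 0 1).IsCopy (S2 n m) := by
  have h : (0 : ℝ) ^ 2 + 1 ^ 2 = 1 := by norm_num
  refine isCopy_of_hom (calc2 0 1 h) (pull fun o => (o.1, o.2.1)) (fun d => ?_) xD yD
    (calc2_xD 0 1 h) (calc2_yD 0 1 h) ?_ ?_ ?_ ?_
  · rw [calc2_φ, pull_φ]
    simp only [Fintype.sum_prod_type, sum_B, wt]
    norm_num
    ring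
  · rfl
  · rfl
  · rw [norm_smul, norm_smul, norm_one_of_sq xm_sa xm_sq, norm_one_of_sq xf_sa xf_sq]
  · rw [norm_one_of_sq (rm_sa 0 1) (rm_sq h), norm_one_of_sq vf_sa vf_sq]

lemma sg_beq (a b : B.{u}) : sg (⟨a.down == b.down⟩ : B.{u}) = sg a * sg b := by
  rcases a with ⟨a⟩; rcases b with ⟨b⟩
  cases a <;> cases b <;> simp [sg]

lemma copy3 (n m : ℕ) : (Mm.{u} n m (3 / 5) (4 / 5)).IsCopy (S3 n m) := by
  have h : (3 / 5 : ℝ) ^ 2 + (4 / 5) ^ 2 = 1 := by norm_num
  refine isCopy_of_hom (calc2 (3 / 5) (4 / 5) h)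
    (pull fun o => (o.1, ⟨o.1.down == o.2.2.down⟩)) (fun d => ?_) xD yD
    (calc2_xD _ _ h) (calc2_yD _ _ h) ?_ ?_ ?_ ?_
  · rw [calc2_φ, pull_φ]
    simp only [Fintype.sum_prod_type, sum_B, wt]
    norm_num
    ring
  · rfl
  · funext o
    exact sg_beq _ _
  · rw [norm_smul, norm_smul, norm_one_of_sq xm_sa xm_sq, norm_one_of_sq xf_sa xf_sq]
  · rw [norm_one_of_sq (rm_sa _ _) (rm_sq h), norm_one_of_sq yf_sa yf_sq]

lemma W12 {n m : ℕ} (hn : 0 < n) (hm : 0 < m) : W2 (S1.{u} n m) (S2 n m) ≤ 2 := by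
  refine (W2_le (isCopy_refl _) (isCopy_refl _)).trans ((dist2_mk hn hm).le.trans ?_)
  apply Real.sqrt_le_iff.mpr ⟨by norm_num, ?_⟩
  rw [sub_self, norm2_zero, norm2_sq]
  have e : star (vf - (2 : ℂ) • xf - vf) * (vf - (2 : ℂ) • xf - vf)
      = ((4 : ℂ) • (1 : Om.{u} → ℂ)) := by
    have : vf - (2 : ℂ) • xf - vf = -((2 : ℂ) • xf.{u}) := by abel
    rw [this, star_neg, neg_mul_neg, star_smul, xf_sa, smul_mul_assoc, mul_smul_comm, xf_sq,
      smul_smul]
    congr 1
    norm_num
  rw [e, map_smul, comm.map_one]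
  norm_num

lemma W23 {n m : ℕ} (hn : 0 < n) (hm : 0 < m) : W2 (S2.{u} n m) (S3 n m) ≤ 0.64 := by
  refine (W2_le (copy2 n m) (copy3 n m)).trans ((dist2_mk hn hm).le.trans ?_)
  apply Real.sqrt_le_iff.mpr ⟨by norm_num, ?_⟩
  rw [sub_self, norm2_zero, norm2_sq, star_sub, rm_sa, rm_sa, mat_φ]
  simp only [Pi.mul_apply, Pi.sub_apply, rm, refl, CStarMatrix.mul_apply, Fin.sum_univ_two,
    CStarMatrix.sub_apply, CStarMatrix.ofMatrix_apply]
  simp
  norm_num

/-- the polynomial giving the mirror of the left variable -/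
noncomputable def pV : Polynomial ℂ :=
  Polynomial.C (5 / 6) * (Polynomial.X ^ 3 - Polynomial.C 13 * Polynomial.X)

/-- the polynomial giving `W` -/
noncomputable def pW : Polynomial ℂ :=
  Polynomial.C (1 / 8) * (Polynomial.X ^ 3 - Polynomial.C 9 * Polynomial.X)

lemma pVW : (Polynomial.X : Polynomial ℂ)
    = Polynomial.C 2 * pW - Polynomial.C (3 / 10) * pV := by
  unfold pV pW
  have h1 : (Polynomial.C 2 : Polynomial ℂ) * (Polynomial.C (1 / 8) *
      (Polynomial.X ^ 3 - Polynomial.C 9 * Polynomial.X))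
      = Polynomial.C (1 / 4) * Polynomial.X ^ 3 - Polynomial.C (9 / 4) * Polynomial.X := by
    rw [← mul_assoc, ← Polynomial.C_mul, mul_sub, ← mul_assoc, ← Polynomial.C_mul]
    norm_num
  have h2 : (Polynomial.C (3 / 10) : Polynomial ℂ) * (Polynomial.C (5 / 6) *
      (Polynomial.X ^ 3 - Polynomial.C 13 * Polynomial.X))
      = Polynomial.C (1 / 4) * Polynomial.X ^ 3 - Polynomial.C (13 / 4) * Polynomial.X := by
    rw [← mul_assoc, ← Polynomial.C_mul, mul_sub, ← mul_assoc, ← Polynomial.C_mul]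
    norm_num
  rw [h1, h2]
  have h3 : (Polynomial.C (13 / 4) : Polynomial ℂ) = Polynomial.C (9 / 4) + 1 := by
    rw [← Polynomial.C_1, ← Polynomial.C_add]; norm_num
  rw [h3]; ring

lemma aeval_sa {A : Type u} [CStarAlgebra A] {y : A} (hy : IsSelfAdjoint y) (r c : ℝ) :
    IsSelfAdjoint (Polynomial.aeval y
      (Polynomial.C (r : ℂ) * (Polynomial.X ^ 3 - Polynomial.C (c : ℂ) * Polynomial.X))) := by
  simp only [map_mul, map_sub, map_pow, Polynomial.aeval_X, Polynomial.aeval_C,
    ← Algebra.smul_def]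
  have h1 : IsSelfAdjoint (r : ℂ) := by
    rw [IsSelfAdjoint, Complex.star_def, Complex.conj_ofReal]
  have h2 : IsSelfAdjoint (c : ℂ) := by
    rw [IsSelfAdjoint, Complex.star_def, Complex.conj_ofReal]
  exact h1.smul ((hy.pow 3).sub (h2.smul hy))

lemma comm_aeval (f : Om.{u} → ℂ) (p : Polynomial ℂ) :
    comm.φ (Polynomial.aeval f p) = ∑ o, (wt o : ℂ) * Polynomial.eval (f o) p := by
  rw [comm_φ]
  refine Finset.sum_congr rfl fun o _ => ?_
  rw [Polynomial.aeval_fn_apply, Polynomial.coe_aeval_eq_eval]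

lemma comm_mul_aeval (g f : Om.{u} → ℂ) (p : Polynomial ℂ) :
    comm.φ (g * Polynomial.aeval f p) = ∑ o, (wt o : ℂ) * (g o * Polynomial.eval (f o) p) := by
  rw [comm_φ]
  refine Finset.sum_congr rfl fun o _ => ?_
  rw [Pi.mul_apply, Polynomial.aeval_fn_apply, Polynomial.coe_aeval_eq_eval]

lemma W13 {n m : ℕ} (hn : 0 < n) (hm : 0 < m) : 2.7 ≤ W2 (S1.{u} n m) (S3 n m) := by
  unfold W2
  refine le_csInf ⟨_, comm, S1 n m, S3 n m, isCopy_refl _, isCopy_refl _, rfl⟩ ?_
  rintro d ⟨U, s, t, hs, ht, rfl⟩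
  apply Real.le_sqrt_of_sq_le
  set i : Fin n := ⟨0, hn⟩ with hi
  set j : Fin m := ⟨0, hm⟩ with hj
  have hX1 : (S1.{u} n m).X i = (10 : ℂ) • xf := by simp [S1, mk, hi]
  have hY1 : (S1.{u} n m).Y j = vf - (2 : ℂ) • xf := by simp [S1, mk, hj]
  have hX3 : (S3.{u} n m).X i = (10 : ℂ) • xf := by simp [S3, mk, hi]
  have hY3 : (S3.{u} n m).Y j = yf := by simp [S3, mk, hj]
  have key := lower U (s.X i) (t.X i) (s.Y j) (t.Y j) (Polynomial.aeval (s.Y j) pV)
    (Polynomial.aeval (s.Y j) pW) (s.X_sa i) (t.X_sa i) (s.Y_sa j) (t.Y_sa j)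
    (by
      have := aeval_sa (s.Y_sa j) (5 / 6) 13
      push_cast at this; exact this)
    (by
      have := aeval_sa (s.Y_sa j) (1 / 8) 9
      push_cast at this; exact this)
    (s.X_mem i) (aeval_mem _ (s.Y_mem j) _) (aeval_mem _ (s.Y_mem j) _) (s.Y_mem j) (t.Y_mem j)
    (by
      conv_lhs => rw [← Polynomial.aeval_X (R := ℂ) (s.Y j), pVW]
      simp only [map_sub, map_mul, Polynomial.aeval_C, ← Algebra.smul_def])
    (by
      rw [hs.phi_XX i, hX1, comm_φ]
      simp [Fintype.sum_prod_type, sum_B, wt, xf, sg_true, sg_false]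
      norm_num)
    (by
      rw [hs.phi_X_aeval i j, hX1, hY1, comm_mul_aeval]
      simp [Fintype.sum_prod_type, sum_B, wt, xf, vf, sg_true, sg_false, pV]
      norm_num)
    (by
      rw [← map_mul, hs.phi_aeval j, hY1, comm_aeval]
      simp [Fintype.sum_prod_type, sum_B, wt, xf, vf, sg_true, sg_false, pV]
      norm_num)
    (by
      rw [← map_mul, hs.phi_aeval j, hY1, comm_aeval]
      simp [Fintype.sum_prod_type, sum_B, wt, xf, vf, sg_true, sg_false, pW]
      norm_num)
    (by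
      simp only [← map_mul]
      rw [hs.phi_aeval j, hY1, comm_aeval]
      simp [Fintype.sum_prod_type, sum_B, wt, xf, vf, sg_true, sg_false, pW]
      norm_num)
    (by
      simp only [← map_mul, ← map_sub]
      rw [hs.phi_aeval j, hY1, comm_aeval]
      simp [Fintype.sum_prod_type, sum_B, wt, xf, vf, sg_true, sg_false, pW]
      norm_num)
    (by
      rw [← pow_two, hs.phi_pow j, hY1, comm_φ]
      simp [Fintype.sum_prod_type, sum_B, wt, xf, vf, sg_true, sg_false]
      norm_num)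
    (by
      have := ht.phi_X_pow i j 1
      rw [pow_one, pow_one] at this
      rw [this, hX3, hY3, comm_φ]
      simp [Fintype.sum_prod_type, sum_B, wt, xf, yf, sg_true, sg_false]
      norm_num)
    (by
      rw [← pow_two, ht.phi_pow j, hY3, comm_φ]
      simp [Fintype.sum_prod_type, sum_B, wt, yf, sg_true, sg_false]
      norm_num)
    (by
      have h : (t.Y j * t.Y j - 1) * (t.Y j * t.Y j - 1) = Polynomial.aeval (t.Y j)
        ((Polynomial.X * Polynomial.X - 1) * (Polynomial.X * Polynomial.X - 1) :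
          Polynomial ℂ) := by
        simp
      rw [h, ht.phi_aeval j, hY3, comm_aeval]
      simp [Fintype.sum_prod_type, sum_B, yf, sg_true, sg_false])
  have b1 : U.norm2 (s.X i - t.X i) ^ 2 ≤ ∑ i, U.norm2 (s.X i - t.X i) ^ 2 :=
    Finset.single_le_sum (f := fun i => U.norm2 (s.X i - t.X i) ^ 2)
      (fun _ _ => sq_nonneg _) (Finset.mem_univ i)
  have b2 : U.norm2 (s.Y j - t.Y j) ^ 2 ≤ ∑ j, U.norm2 (s.Y j - t.Y j) ^ 2 :=
    Finset.single_le_sum (f := fun j => U.norm2 (s.Y j - t.Y j) ^ 2)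
      (fun _ _ => sq_nonneg _) (Finset.mem_univ j)
  have : (2.7 : ℝ) ^ 2 ≤ 7.5 := by norm_num
  linarith

/-- For all `n, m ≥ 1` the triangle inequality fails for `W₂` on tracially bi-partite systems
with `n` left and `m` right variables. (All three infima are over nonempty sets.) -/
theorem result (n m : ℕ) (hn : 0 < n) (hm : 0 < m) :
    ∃ (T₁ T₂ T₃ : Space.{u}) (s₁ : System T₁ n m) (s₂ : System T₂ n m) (s₃ : System T₃ n m),
      ((costs s₁ s₂).Nonempty ∧ (costs s₂ s₃).Nonempty ∧ (costs s₁ s₃).Nonempty) ∧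
        W2 s₁ s₂ + W2 s₂ s₃ < W2 s₁ s₃ := by
  refine ⟨comm, comm, comm, S1 n m, S2 n m, S3 n m,
    ⟨⟨_, comm, S1 n m, S2 n m, isCopy_refl _, isCopy_refl _, rfl⟩,
      ⟨_, comm, S2 n m, S3 n m, isCopy_refl _, isCopy_refl _, rfl⟩,
      ⟨_, comm, S1 n m, S3 n m, isCopy_refl _, isCopy_refl _, rfl⟩⟩, ?_⟩
  have h1 := W12.{u} hn hm
  have h2 := W23.{u} hn hm
  have h3 := W13.{u} hn hm
  norm_num at h1 h2 h3 ⊢
  linarith

end Pool.Agent.Results.MP_fc6efe_an.TriangleFails
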